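import Pool.Agent.Helper48.ROW.Row
import Pool.Agent.Helper89.RAT.Fam

/-! ROW (2): if the mean exponent of the gradient in the direction `z` is at least `θ` on every event of the space of the
label, it is typically at least `θ`; then the label, refined by finitely many classes, knows a polynomial which is small
at the point and whose derivative in the direction `z` is at least `2 ^ (θ n)`. -/

set_option autoImplicit false

namespace Pool.Agent.Helper48.ROW

open Finset Filter Topology Matrix Pool.Agent.Helper69.RK Pool.Agent.Helper31.EC Pool.Agent.Helper31.EC.Sp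
open Pool.Agent.Helper40.EL Pool.Agent.Helper89.LX Pool.Agent.Helper3.LF Pool.Agent.Helper84.MT Pool.Agent.Helper89.RAT
open Pool.Agent.Helper95.LF (PdM exists_factor)

noncomputable section

variable {S : Sp} {M D : ℕ} {κ : Type}

/-- mean exponents on events and typical exponents -/
theorem typ_mean [Finite κ] {A : κ → Part S} {Q : S.VV M} {z : Fin M} {x : ∀ k, FD (S.F k) (Mon M D)}
    (hx : (gaq Q D).Adf A x) {θ : ℝ} (h : ∀ B : ∀ k, ((lbS x).sp.F k).Ω → Prop, 0 < ul ((lbS x).sp.pr B) →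
      θ ≤ zx (Q.im (lbS x).pj B) z (reS x B)) (e : ℝ) (he : 0 < e) :
    Sp.Typ (S := (lb x).sp) fun k (ω : (x k).l.T.Ω) => θ - e ≤ xz Q z k ((x k).l.p.π ω) ((x k).g ω) := by
  set B : ∀ k, ((lbS x).sp.F k).Ω → Prop := fun k (ω : (x k).l.T.Ω) =>
    ¬ θ - e ≤ xz Q z k ((x k).l.p.π ω) ((x k).g ω) with hB
  have hU : UB ((lbS x).sp.pr B) := UB_pr (S := (lbS x).sp) B
  have h0 : ul ((lbS x).sp.pr B) ≤ 0 := by
    by_contra hc
    have hpos : 0 < ul ((lbS x).sp.pr B) := not_le.1 hc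
    have h1 := h B hpos
    have h2 : (gaq (Q.im (lbS x).pj B) D).Adf (fun i => (A i).im (lbS x).pj B) (reS x B) := by
      rw [gaq_im]
      exact Gau.Adf.re hx B hpos
    have h3 : zx (Q.im (lbS x).pj B) z (reS x B) ≤ θ - e := by
      apply ul_le_const (zv_UB z h2)
      have h4 := pr_half' (S := (lbS x).sp) hpos
      filter_upwards [h4] with k hk
      have hpb : (x k).l.T.pb (B k) ≠ 0 := by
        have h5 : 0 < ul ((lbS x).sp.pr B) / 2 := by linarith
        exact (lt_of_lt_of_le h5 hk).ne'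
      show ∑ ω, ((x k).l.T.rest (B k)).μ ω * xz Q z k ((x k).l.p.π ω) ((x k).g ω) ≤ θ - e
      have e1 : ∑ ω, ((x k).l.T.rest (B k)).μ ω = 1 := ((x k).l.T.rest (B k)).ms
      have e2 : θ - e = ∑ ω, ((x k).l.T.rest (B k)).μ ω * (θ - e) := by
        rw [← Finset.sum_mul, e1, one_mul]
      rw [e2]
      refine Finset.sum_le_sum fun ω _ => ?_
      by_cases hω : ((x k).l.T.rest (B k)).μ ω = 0
      · rw [hω, zero_mul, zero_mul]
      · have h6 := ((x k).l.T.rest_supp (B k) ω hω).2 hpb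
        exact mul_le_mul_of_nonneg_left (not_le.1 h6).le (((x k).l.T.rest (B k)).nn ω)
    linarith
  have h1 : 0 ≤ ul ((lbS x).sp.pr B) := const_le_ul hU (Eventually.of_forall fun k => (x k).l.T.pb_nonneg _)
  have h2 := ul_tendsto hU
  rw [le_antisymm h0 h1] at h2
  exact h2

/-- a finite set of indices -/
abbrev Ix (M D : ℕ) : Type := Mon M D × {w : List (Fin M) // w.length ≤ D}

instance (M D : ℕ) : Finite {w : List (Fin M) // w.length ≤ D} := List.finite_length_le (Fin M) D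

/-- the number of indices -/
def nIx (M D : ℕ) : ℕ := Nat.card (Ix M D)

/-- the number of an index -/
def cIx (i : Ix M D) : ℕ := (Finite.equivFin (Ix M D) i).val

theorem cIx_inj {i i' : Ix M D} (h : cIx i = cIx i') : i = i' :=
  (Finite.equivFin (Ix M D)).injective (Fin.ext h)

theorem cIx_le (i : Ix M D) : cIx i ≤ nIx M D := (Finite.equivFin (Ix M D) i).isLt.le

/-- the partition of an index -/
def pIx {Ω : Type} (f : Ω → Ix M D) : Setoid Ω := Setoid.ker fun ω => (fun _ : Fin 1 => (cIx (f ω) : ℤ))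

theorem pIx_eq {Ω : Type} {f : Ω → Ix M D} {ω ω' : Ω} (h : pIx f ω ω') : f ω = f ω' := by
  have h1 : (fun _ : Fin 1 => (cIx (f ω) : ℤ)) = fun _ : Fin 1 => (cIx (f ω') : ℤ) := h
  apply cIx_inj
  exact_mod_cast congrFun h1 0

theorem pIx_h {T : FSp} (f : T.Ω → Ix M D) (y : FL T) : h (fc (pIx f)) y ≤ Real.logb 2 (nIx M D + 1) :=
  few (fun ω => cIx (f ω)) (nIx M D) (fun ω _ => cIx_le (f ω)) y

/-- the chosen factor -/
def fac (A : Matrix (Mon M D) (Mon M D) ℝ) : Matrix (Mon M D) (Mon M D) ℝ := by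
  classical exact if h : PdM A then (exists_factor A h).choose else 0

theorem fac_eq {A : Matrix (Mon M D) (Mon M D) ℝ} (h : PdM A) : A = (fac A).transpose * fac A := by
  unfold fac
  rw [dif_pos h]
  exact (exists_factor A h).choose_spec.1

/-- THE ROW: an admissible form, above the identity, whose exponent in the direction `z` is typically at least `θ` -/
theorem rows_ex {A : κ → Part S} {Q : S.VV M} {z : Fin M} (hD : 1 ≤ D) {x : ∀ k, FD (S.F k) (Mon M D)}
    (hx : (gaq Q D).Adf A x) {θ : ℝ} (hθ : ∀ e : ℝ, 0 < e → Sp.Typ (S := (lb x).sp) fun k (ω : (x k).l.T.Ω) =>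
      θ - e ≤ xz Q z k ((x k).l.p.π ω) ((x k).g ω)) :
    ∃ (f : ∀ k, (x k).l.T.Ω → Ix M D) (p : ∀ k, (x k).l.T.Ω → MvPolynomial (Fin M) ℝ) (K : ℕ → ℝ),
      (∀ k ω, (p k ω).totalDegree ≤ D) ∧
      (∀ k ω ω', (x k).l.T.μ ω ≠ 0 → (x k).l.T.μ ω' ≠ 0 → (x k).l.V ω ω' → (x k).l.T.Z ω ω' → f k ω = f k ω' →
        p k ω = p k ω') ∧ S.Sub K ∧ Sp.Typ (S := (lb x).sp) fun k (ω : (x k).l.T.Ω) =>
          |MvPolynomial.eval (Q.v k ((x k).l.p.π ω)) (p k ω)| ≤ K k ∧
          2 ^ (θ * (S.F k).n) ≤ K k *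
            |MvPolynomial.eval (Q.v k ((x k).l.p.π ω)) (MvPolynomial.pderiv z (p k ω))| := by
  classical
  have hex : ∀ k (ω : (x k).l.T.Ω), ∃ i : Ix M D, Jq (S.dl 1 k) ((fac ((x k).g ω)).transpose * fac ((x k).g ω))
      (Q.v k ((x k).l.p.π ω)) z z ≤ cR M D * (MvPolynomial.eval (Q.v k ((x k).l.p.π ω))
        (MvPolynomial.pderiv z (pw (S.dl 1 k) (fac ((x k).g ω)) i.1 i.2.1))) ^ 2 := by
    intro k ω
    obtain ⟨a, w, hw, h1⟩ := row_ex (S.dl 1 k) (S.dl_pos 1 k) (fac ((x k).g ω)) (Q.v k ((x k).l.p.π ω)) z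
    exact ⟨(a, ⟨w, hw⟩), h1⟩
  choose f hf using hex
  obtain ⟨K1, hK1, hT1⟩ := Pool.Agent.Helper14.MC.adf_sub hx
  -- the lower bound of the gradient
  obtain ⟨K2, hK2, hK2', hT2⟩ := typ_sub_ge (S := (lb x).sp)
    (fun k (ω : (x k).l.T.Ω) => Jz Q z k ((x k).l.p.π ω) ((x k).g ω)) (2 * θ) (fun e he => by
      have he2 : 0 < e / 2 := by linarith
      refine typ_mono (hθ (e / 2) he2) ?_
      filter_upwards [hx 1 one_pos] with k hk ω hω h1
      have hn : (((lb x).sp).F k).n = (S.F k).n := sp_n (lb x) k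
      have hn0 := (S.F k).pos
      have hc := (hk.2.1 ω hω).1
      have h2 := one_le_Jz Q z k ((x k).l.p.π ω) (fun v => hc.psd.2 v)
      unfold xz at h1
      rw [le_div_iff₀ (by positivity)] at h1
      rw [hn, ← Real.le_logb_iff_rpow_le (by norm_num) (by linarith)]
      refine le_trans (le_of_eq ?_) h1
      ring)
  have hK2S := (sp_Sub (lb x)).mp hK2
  have hc1 := cR_one M D
  refine ⟨f, fun k ω => pw (S.dl 1 k) (fac ((x k).g ω)) (f k ω).1 (f k ω).2.1,
    fun k => cR M D * (K1 k + 1) + 2 * cR M D * K2 k, fun k ω => pw_deg _ _ _ _, ?_, ?_, ?_⟩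
  · intro k ω ω' a b c d hff
    beta_reduce
    rw [((x k).meas ω ω' a b c d).1, hff]
  · exact ((S.Sub_const (by linarith)).mul (hK1.add (S.Sub_const zero_le_one))).add
      ((S.Sub_const (by linarith)).mul hK2S)
  · refine typ_mono (typ_and hT1 hT2) ?_
    filter_upwards [hx 1 one_pos, hK1.1] with k hk hK10 ω hω hh
    obtain ⟨h1, h2⟩ := hh
    have hn : (((lb x).sp).F k).n = (S.F k).n := sp_n (lb x) k
    rw [hn] at h2
    have hc := (hk.2.1 ω hω).1
    have hK21 := hK2' k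
    have hJ := hf k ω
    have hv := pw_val (S.dl 1 k) (S.dl_pos 1 k) (fac ((x k).g ω)) (Q.v k ((x k).l.p.π ω)) (f k ω).1 (f k ω).2.1
      (f k ω).2.2
    rw [← fac_eq hc.pdM] at hJ hv
    set a := MvPolynomial.eval (Q.v k ((x k).l.p.π ω)) (pw (S.dl 1 k) (fac ((x k).g ω)) (f k ω).1 (f k ω).2.1) with ha
    set b := MvPolynomial.eval (Q.v k ((x k).l.p.π ω)) (MvPolynomial.pderiv z
      (pw (S.dl 1 k) (fac ((x k).g ω)) (f k ω).1 (f k ω).2.1)) with hb
    constructor
    · have h3 : a ^ 2 ≤ cR M D * K1 k := hv.trans (mul_le_mul_of_nonneg_left h1 (by linarith))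
      have h4 : |a| ^ 2 ≤ (cR M D * (K1 k + 1)) ^ 2 := by
        rw [sq_abs]
        refine h3.trans ?_
        have h5 : cR M D * K1 k ≤ cR M D * (K1 k + 1) := mul_le_mul_of_nonneg_left (by linarith) (by linarith)
        have h6 : 1 ≤ cR M D * (K1 k + 1) := one_le_mul_of_one_le_of_one_le hc1 (by linarith)
        nlinarith
      have h5 := abs_le_of_sq_le_sq h4 (by positivity)
      rw [abs_abs] at h5
      have h6 : 0 ≤ 2 * cR M D * K2 k := by positivity
      linarith
    · have h3 : 1 ≤ Jq (S.dl 1 k) ((x k).g ω) (Q.v k ((x k).l.p.π ω)) z z := by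
        have h4 := Pool.Agent.Helper26.MZ.Jq_ge_self hD (S.dl 1 k) (B := (x k).g ω) (fun v => hc.2.1 v)
          (Q.v k ((x k).l.p.π ω)) (Pi.single z 1)
        rw [single_dv, single_dotProduct, one_mul, Pi.single_eq_same] at h4
        exact h4
      have h4 : Jz Q z k ((x k).l.p.π ω) ((x k).g ω) ≤ 2 * (cR M D * b ^ 2) := by
        unfold Jz
        linarith
      have h5 : 2 ^ (2 * θ * (S.F k).n) ≤ 2 * cR M D * K2 k * b ^ 2 := by
        refine h2.trans ?_
        have := mul_le_mul_of_nonneg_left h4 (by linarith : (0 : ℝ) ≤ K2 k)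
        linarith
      have h6 : ((2 : ℝ) ^ (θ * (S.F k).n)) ^ 2 ≤ (2 * cR M D * K2 k * |b|) ^ 2 := by
        have e1 : ((2 : ℝ) ^ (θ * (S.F k).n)) ^ 2 = 2 ^ (2 * θ * (S.F k).n) := by
          rw [← Real.rpow_natCast, ← Real.rpow_mul (by norm_num)]
          congr 1
          push_cast
          ring
        rw [e1, mul_pow, sq_abs]
        refine h5.trans ?_
        have h7 : 1 ≤ 2 * cR M D * K2 k := by nlinarith
        have h8 := sq_nonneg b
        nlinarith [mul_nonneg (by linarith : (0 : ℝ) ≤ 2 * cR M D * K2 k) h8]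
      have h7 := abs_le_of_sq_le_sq h6 (by positivity)
      rw [abs_of_pos (by positivity)] at h7
      refine h7.trans (mul_le_mul_of_nonneg_right ?_ (abs_nonneg _))
      have : 0 ≤ cR M D * (K1 k + 1) := by positivity
      linarith

end

end Pool.Agent.Helper48.ROW
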