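import Pool.Agent.Helper48.ROW.Out
import Pool.Agent.Helper81.MT.Img
import Pool.Agent.Helper26.MT.Zn

/-! ROW (6): THE ROWS. If the coordinates `< m` have over `kappa_c` the entropy `Σ_(i < m) (1 - w_i c)`, for all `m < M`, and
the hull has volume at most `Σ_i (1 - w_i c)`, on all events of all extensions, then there are rows of all layers:
`RowP s c j (w j * c)`. -/

set_option autoImplicit false

namespace Pool.Agent.Helper48.ROW

open Finset Filter Topology Matrix Pool.Agent.Helper69.RK Pool.Agent.Helper31.EC Pool.Agent.Helper31.EC.Sp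
open Pool.Agent.Helper40.EL Pool.Agent.Helper89.LX Pool.Agent.Helper3.LF Pool.Agent.Helper84.MT Pool.Agent.Helper89.RAT
open Pool.Agent.Helper85.FRM

noncomputable section

variable {S : Sp} {M N D : ℕ} {E : ℕ → ℕ} {ι κ : Type} {s : MSys S M E ι}

/-! ### projected systems -/

theorem hE1 (E : ℕ → ℕ) (D : ℕ) : E (1 * D) ≤ E D := by rw [one_mul]

/-- the system of the coordinates `< N` -/
def prs (s : MSys S M E ι) {N : ℕ} (hN : N ≤ M) : MSys S N E ι := s.img (PMap.coo S (Fin.castLE hN)) le_rfl (hE1 E)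

theorem prs_v (s : MSys S M E ι) {N : ℕ} (hN : N ≤ M) (k : ℕ) (ω : (S.F k).Ω) (a : Fin N) :
    (prs s hN).Q.v k ω a = s.Q.v k ω (Fin.castLE hN a) := congrFun (PMap.coo_ev (Fin.castLE hN) k ω (s.Q.v k ω)) a

/-- the cells of the projected point -/
theorem prs_pre (s : MSys S M E ι) {N : ℕ} (hN : N ≤ M) (k : ℕ) :
    pre s.Q N k = fc (Setoid.ker ((prs s hN).Q.cellv 1 k)) := by
  have e1 : Setoid.ker (fun ω (i : Fin M) => if i.val < N then s.Q.cellv 1 k ω i else 0) =
      Setoid.ker ((prs s hN).Q.cellv 1 k) := by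
    apply Setoid.ext
    intro ω ω'
    have hc : ∀ ω a, (prs s hN).Q.cellv 1 k ω a = s.Q.cellv 1 k ω (Fin.castLE hN a) := by
      intro ω a
      show ⌊(prs s hN).Q.v k ω a / S.dl 1 k⌋ = ⌊s.Q.v k ω (Fin.castLE hN a) / S.dl 1 k⌋
      rw [prs_v]
    rw [Setoid.ker_def, Setoid.ker_def]
    constructor
    · intro h
      funext a
      rw [hc, hc]
      have h1 := congrFun h (Fin.castLE hN a)
      have h2 : (Fin.castLE hN a).val < N := a.2
      simp only [h2, if_true] at h1
      exact h1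
    · intro h
      funext i
      by_cases hi : i.val < N
      · have h1 := congrFun h ⟨i.val, hi⟩
        rw [hc, hc] at h1
        simp only [hi, if_true]
        exact h1
      · simp only [hi, if_false]
  show fc (Setoid.ker fun ω (i : Fin M) => if i.val < N then s.Q.cellv 1 k ω i else 0) = _
  rw [e1]

/-- entropies over a label -/
theorem H_dir (P : S.VV N) (l : Lab S) {v : ℝ}
    (ht : Tendsto (fun k => h ((l k).p.map (fc (Setoid.ker (P.cellv 1 k)))) (l k).v / (S.F k).n) UF (𝓝 v)) :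
    H (up1 l (P.dg 1)) = v := by
  have e1 : P.dg 1 = cl (P.bdd 1).toInf := io_eq (P.bdd 1)
  rw [e1, H_up1_cl]
  exact ul_eq ht

/-! ### the hypotheses -/

/-- the numbers of the coordinates `< j`, on all events of all extensions -/
def NumE (s : MSys S M E ι) (c : ℝ) (w : Fin M → ℝ) : Prop :=
  ∀ (T : Sp) (p : Pj T S) (A : ∀ k, (T.F k).Ω → Prop) (hA : 0 < ul (T.pr A)) (l : Lab (Sp.im p A)),
    (s.im p A hA).IsKap c l → ∀ j : Fin M, Tendsto (fun k => h ((l k).p.map (pre (s.im p A hA).Q j.val k)) (l k).v /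
      ((Sp.im p A).F k).n) UF (𝓝 (∑ i : Fin M, if i < j then 1 - w i * c else 0))

/-- the volume of the hull, on all events of all extensions -/
def VolE [Finite ι] (s : MSys S M E ι) (D : ℕ) (c : ℝ) (w : Fin M → ℝ) : Prop :=
  ∀ (T : Sp) (p : Pj T S) (A : ∀ k, (T.F k).Ω → Prop) (hA : 0 < ul (T.pr A)),
    (s.im p A hA).vol D c ≤ ∑ i : Fin M, (1 - w i * c)

theorem sum_succ (w : Fin M → ℝ) (c : ℝ) (j : Fin M) (h : j.val + 1 < M) :
    (∑ i : Fin M, if i < (⟨j.val + 1, h⟩ : Fin M) then 1 - w i * c else 0) =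
      (∑ i : Fin M, if i < j then 1 - w i * c else 0) + (1 - w j * c) := by
  have e1 : ∀ i : Fin M, (if i < (⟨j.val + 1, h⟩ : Fin M) then 1 - w i * c else 0) =
      (if i < j then 1 - w i * c else 0) + (if i = j then 1 - w i * c else 0) := by
    intro i
    rcases lt_trichotomy i j with h1 | h1 | h1
    · have h2 : i < (⟨j.val + 1, h⟩ : Fin M) := by
        rw [Fin.lt_def] at h1 ⊢
        show i.val < j.val + 1
        omega
      rw [if_pos h2, if_pos h1, if_neg h1.ne, add_zero]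
    · have h2 : i < (⟨j.val + 1, h⟩ : Fin M) := by
        rw [Fin.lt_def, h1]
        exact Nat.lt_succ_self _
      rw [if_pos h2, if_neg (by rw [h1]; exact lt_irrefl _), if_pos h1, zero_add]
    · have h2 : ¬ i < (⟨j.val + 1, h⟩ : Fin M) := by
        rw [Fin.lt_def] at h1 ⊢
        show ¬ i.val < j.val + 1
        omega
      rw [if_neg h2, if_neg (not_lt.2 h1.le), if_neg h1.ne', add_zero]
  rw [Finset.sum_congr rfl fun i _ => e1 i, Finset.sum_add_distrib]
  congr 1
  rw [Finset.sum_ite_eq' Finset.univ j]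
  rw [if_pos (Finset.mem_univ j)]

theorem sum_last {d : ℕ} (w : Fin (d + 1) → ℝ) (c : ℝ) : (∑ i : Fin (d + 1), (1 - w i * c)) =
    (∑ i : Fin (d + 1), if i < Fin.last d then 1 - w i * c else 0) + (1 - w (Fin.last d) * c) := by
  have e1 : ∀ i : Fin (d + 1), (1 - w i * c) =
      (if i < Fin.last d then 1 - w i * c else 0) + (if i = Fin.last d then 1 - w i * c else 0) := by
    intro i
    rcases (Fin.le_last i).lt_or_eq with h1 | h1
    · rw [if_pos h1, if_neg h1.ne, add_zero]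
    · rw [if_neg (by rw [h1]; exact lt_irrefl _), if_pos h1, zero_add]
  rw [Finset.sum_congr rfl fun i _ => e1 i, Finset.sum_add_distrib]
  congr 1
  rw [Finset.sum_ite_eq' Finset.univ (Fin.last d)]
  rw [if_pos (Finset.mem_univ _)]

/-! ### the last coordinate -/

theorem row_last {d g r : ℕ} {s : MSys S (d + 1) (lin g) (Fin r)} (hD : 1 ≤ D) (hst : STm D d (lin g) (Fin r)) {c : ℝ}
    (h0 : 0 ≤ c) (h1 : c < 1) {w : Fin (d + 1) → ℝ} (hN : NumE s c w) (hV : VolE s D c w) :
    RowP s c (Fin.last d) (w (Fin.last d) * c) := by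
  obtain ⟨x, hx⟩ := s.exists_can D c
  refine row_dir hD (fun a => Fin.le_last a) hx.1.1 hx.2.1 ?_
  refine typ_mean hx.1.1 fun B hB => ?_
  have hu := hx.re B hB
  set u : MSys (Sp.im (lbS x).pj B) (d + 1) (lin g) (Fin r) := s.im (lbS x).pj B hB with hudef
  have hd : d ≤ d + 1 := Nat.le_succ d
  set P : (Sp.im (lbS x).pj B).VV d := (prs u hd).Q with hPdef
  have hP : ∀ k ω a, P.v k ω a = u.Q.v k ω ((Fin.last d).succAbove a) := by
    intro k ω a
    rw [hPdef, prs_v, Fin.succAbove_last]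
    rfl
  have hp := pdt_of u hD (Fin.last d) P hP
  have e1 := hp.eta_eq hD hst h0 h1 hu
  rw [eta_can hu] at e1
  have e2 : vol u.Q D (reS x B) ≤ ∑ i, (1 - w i * c) := by
    rw [u.vol_eq hu.1]
    exact hV _ _ B hB
  have e3 : H (up1 (lb (reS x B)) (P.dg 1)) = ∑ i : Fin (d + 1), if i < Fin.last d then 1 - w i * c else 0 := by
    have t1 := hN _ (lbS x).pj B hB (lb (reS x B)) hu.2 (Fin.last d)
    refine H_dir P _ (Tendsto.congr (fun k => ?_) t1)
    have e4 := prs_pre u hd k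
    have e5 : (Fin.last d).val = d := rfl
    rw [e5]
    exact congrArg (fun t => h ((lb (reS x B) k).p.map t) (lb (reS x B) k).v / ((Sp.im (lbS x).pj B).F k).n) e4
  have e4 := sum_last w c
  have e5 : zx (s.Q.im (lbS x).pj B) (Fin.last d) (reS x B) = zx u.Q (Fin.last d) (reS x B) := rfl
  rw [e5, ← e1]
  linarith

/-! ### the other coordinates -/

theorem con_kap {ι : Type} {s : MSys S M E ι} {c : ℝ} (h : s.Con c) {l : Lab S} (hl : s.DMc c l) : s.IsKap c l :=
  ⟨hl, fun l' hl' => by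
    rw [Lab.Conf.info h hl', Lab.Conf.info h hl]⟩

theorem row_int {g r : ℕ} {s : MSys S M (lin g) (Fin r)} (hD : 1 ≤ D) (j : Fin M) (hj : j.val + 1 < M)
    (hst : STm D j.val (lin g) (Fin r)) (hst' : STm D (j.val + 1) (lin g) (Fin r)) {c : ℝ} (h0 : 0 ≤ c) (h1 : c < 1)
    {w : Fin M → ℝ} (hN : NumE s c w) : RowP s c j (w j * c) := by
  set Z : ZM s := s.mkz h0 h1 (s.kap_isKap c).1 with hZ
  have hZk : s.IsKap Z.c Z.l := s.mkz_kap h0 h1 (s.kap_isKap c)
  have hcon : Z.sys.Con 0 := Z.Con_zero hZk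
  obtain ⟨x, hx⟩ := (prs Z.sys hj.le).exists_can D 0
  have hlab : Z.sys.DMc 0 (lb x) := MSys.DMc.of_img hx.2.1
  have hkap : Z.sys.IsKap 0 (lb x) := con_kap hcon hlab
  have hL : s.IsKap c (Z.cl (lb x)) := by
    have h2 := Z.IsKap_cl le_rfl hkap
    rw [mul_zero, add_zero] at h2
    exact h2
  -- numbers on events
  have key : ∀ (m : Fin M) (B : ∀ k, ((lb x).sp.F k).Ω → Prop) (hB : 0 < ul ((lb x).sp.pr B)),
      H (up1 ((lb x).im B) (((Z.fr (prs s m.isLt.le).Q).im (lb x).pj B).dg 1)) =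
        (∑ i : Fin M, if i < m then 1 - w i * c else 0) / Z.e := by
    intro m B hB
    have hB' : 0 < ul ((Z.cl (lb x)).sp.pr B) := hB
    have hk := MSys.IsKap.im hL B hB'
    have t1 := hN _ (Z.cl (lb x)).pj B hB' _ hk m
    refine H_zoom Z (prs s m.isLt.le).Q ?_ (lb x) B hB (Tendsto.congr (fun k => ?_) t1)
    · intro k ω ω' a b c1 c2
      have h2 := Z.cell k ω ω' a b c1 c2
      funext i
      show ⌊(prs s m.isLt.le).Q.v k ((Z.l k).p.π ω) i / S.dl Z.c k⌋ =
        ⌊(prs s m.isLt.le).Q.v k ((Z.l k).p.π ω') i / S.dl Z.c k⌋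
      rw [prs_v, prs_v]
      exact congrFun h2 (Fin.castLE m.isLt.le i)
    · have e4 := prs_pre (s.im (Z.cl (lb x)).pj B hB') m.isLt.le k
      exact congrArg (fun t => h (((Z.cl (lb x)).im B k).p.map t) ((Z.cl (lb x)).im B k).v / (S.F k).n) e4
  have hrow := row_out Z hD (Fin.castLE hj.le) (Fin.castLE_injective hj.le) (Fin.last j.val) (fun a => by
    rw [Fin.le_def]
    exact Nat.le_of_lt_succ a.2) (Q' := (prs Z.sys hj.le).Q) (fun k ω a => prs_v Z.sys hj.le k ω a)
    (θ := (w j * c - c) / Z.e) hx.1.1 hlab (by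
      refine typ_mean hx.1.1 fun B hB => ?_
      have hu := hx.re B hB
      set u : MSys (Sp.im (lbS x).pj B) (j.val + 1) (lin g) (Fin r) := (prs Z.sys hj.le).im (lbS x).pj B hB with hudef
      set P : (Sp.im (lbS x).pj B).VV j.val := (prs u (Nat.le_succ j.val)).Q with hPdef
      have hP : ∀ k ω a, P.v k ω a = u.Q.v k ω ((Fin.last j.val).succAbove a) := by
        intro k ω a
        rw [hPdef, prs_v, Fin.succAbove_last]
        rfl
      have hp := pdt_of u hD (Fin.last j.val) P hP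
      have e1 := hp.eta_eq hD hst le_rfl one_pos hu
      rw [eta_can hu] at e1
      have e2 : vol u.Q D (reS x B) ≤ H (up1 (lb (reS x B)) (u.Q.dg 1)) := hst' _ u (reS x B) hu
      have e3 := key ⟨j.val + 1, hj⟩ B hB
      have e4 := key j B hB
      have hv : ∀ (m : Fin M) (k : ℕ) (ω : (Z.sp.F k).Ω) (i : Fin m.val), (Z.fr (prs s m.isLt.le).Q).v k ω i =
          (Z.fr s.Q).v k ω (Fin.castLE m.isLt.le i) := by
        intro m k ω i
        show (prs s m.isLt.le).Q.v k ((Z.l k).p.π ω) i / S.dl Z.c k -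
          ⌊(prs s m.isLt.le).Q.v k ((Z.l k).p.π ω) i / S.dl Z.c k⌋ = _
        rw [prs_v]
        rfl
      have e5 : ((Z.fr (prs s (⟨j.val + 1, hj⟩ : Fin M).isLt.le).Q).im (lb x).pj B).dg 1 = u.Q.dg 1 := by
        apply ZM.dg_congr_v
        intro k ω i
        exact (hv ⟨j.val + 1, hj⟩ k ω i).trans (prs_v Z.sys hj.le k ω i).symm
      have e6 : ((Z.fr (prs s j.isLt.le).Q).im (lb x).pj B).dg 1 = P.dg 1 := by
        apply ZM.dg_congr_v
        intro k ω i
        have a1 := prs_v u (Nat.le_succ j.val) k ω i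
        have a2 := prs_v Z.sys hj.le k ω (Fin.castLE (Nat.le_succ j.val) i)
        exact (hv j k ω i).trans (a2.symm.trans a1.symm)
      rw [e5, sum_succ, add_div] at e3
      rw [e6] at e4
      have g3 : H (up1 (lb (reS x B)) (u.Q.dg 1)) = (∑ i : Fin M, if i < j then 1 - w i * c else 0) / Z.e +
        (1 - w j * c) / Z.e := e3
      have g4 : H (up1 (lb (reS x B)) (P.dg 1)) = (∑ i : Fin M, if i < j then 1 - w i * c else 0) / Z.e := e4
      have he := Z.e_pos
      have hece : Z.e = 1 - c := rfl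
      have e8 : (w j * c - c) / Z.e = 1 - (1 - w j * c) / Z.e := by
        rw [eq_sub_iff_add_eq, ← add_div, div_eq_one_iff_eq he.ne', hece]
        ring
      have e9 : zx ((prs Z.sys hj.le).Q.im (lbS x).pj B) (Fin.last j.val) (reS x B) =
        zx u.Q (Fin.last j.val) (reS x B) := rfl
      rw [e9, ← e1, e8]
      linarith)
  have e1 : Z.c + Z.e * ((w j * c - c) / Z.e) = w j * c := by
    have he := Z.e_pos.ne'
    rw [mul_div_cancel₀ _ he]
    show c + (w j * c - c) = w j * c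
    ring
  rw [e1] at hrow
  have e2 : (Fin.castLE hj.le (Fin.last j.val) : Fin M) = j := Fin.ext rfl
  rw [e2] at hrow
  exact hrow

/-- **THE ROWS** -/
theorem rowP {g r : ℕ} {s : MSys S M (lin g) (Fin r)} (hD : 1 ≤ D) (hst : ∀ d, d < M → STm D d (lin g) (Fin r)) {c : ℝ}
    (h0 : 0 ≤ c) (h1 : c < 1) {w : Fin M → ℝ} (hN : NumE s c w) (hV : VolE s D c w) (j : Fin M) :
    RowP s c j (w j * c) := by
  rcases Nat.lt_or_ge (j.val + 1) M with h2 | h2
  · exact row_int hD j h2 (hst _ j.isLt) (hst _ h2) h0 h1 hN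
  · obtain ⟨d, rfl⟩ : ∃ d, M = d + 1 := ⟨M - 1, by have := j.isLt; omega⟩
    have h3 : j = Fin.last d := Fin.ext (by
      rw [Fin.val_last]
      have := j.isLt
      omega)
    rw [h3]
    exact row_last hD (hst d (Nat.lt_succ_self d)) h0 h1 hN hV

end

end Pool.Agent.Helper48.ROW
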