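import Pool.Agent.Helper89.RAT.Fam
import Pool.Agent.Helper38.NSL.Ni
import Pool.Agent.Helper85.FRM.St

/-! ROW (4): numbers of a zoom on events of the space of a label of the zoom. -/

set_option autoImplicit false

namespace Pool.Agent.Helper48.ROW

open Finset Filter Topology Matrix Pool.Agent.Helper69.RK Pool.Agent.Helper31.EC Pool.Agent.Helper31.EC.Sp
open Pool.Agent.Helper40.EL Pool.Agent.Helper89.LX Pool.Agent.Helper3.LF Pool.Agent.Helper84.MT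

noncomputable section

variable {S : Sp} {M m : ℕ} {E : ℕ → ℕ} {ι : Type} {s : MSys S M E ι}

/-- functions up to rate zero, on events -/
theorem PLe_rest {X Y : Part S} (h1 : PLe X Y) (A : ∀ k, (S.F k).Ω → Prop) (hA : 0 < ul (S.pr A)) :
    PLe (X.rest A) (Y.rest A) :=
  Nul.div_pr hA h1 (fun _ => h_nonneg _ _) (fun k => by
    have := (S.F k).rmap_h_le (A k) (X k) (Y k)
    exact this.trans (by linarith))

variable (Z : ZM s)

/-- the entropy over a label of the zoom, finite level -/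
theorem cl_h (y : Lab Z.sp) (A : ∀ k, (y.sp.F k).Ω → Prop) (k : ℕ) (C : Setoid (S.F k).Ω) :
    h (((Z.cl y).im A k).p.map (fc C : FL ((Sp.im (Z.cl y).pj A).F k))) ((Z.cl y).im A k).v =
      h (fc (Setoid.comap (y k).p.π (Setoid.comap (Z.l k).p.π C)) : FL ((y.sp.rest A).F k))
        (fc (y k).V : FL ((y.sp.rest A).F k)) := by
  have e1 := h_fc (F := (Z.cl y k).T.rest (A k)) (Setoid.comap (fun ω => (Z.l k).p.π ((y k).p.π ω)) C) (Z.cl y k).V
  have e2 := h_fc (F := (y.sp.rest A).F k) (Setoid.comap (y k).p.π (Setoid.comap (Z.l k).p.π C)) (y k).V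
  refine e1.trans (Eq.trans ?_ e2.symm)
  have e3 : ((y.sp.rest A).F k).e (Setoid.comap (y k).p.π (Setoid.comap (Z.l k).p.π C))
      ((Z.cl y k).V ⊓ ((Z.cl y k).T.rest (A k)).Z) =
      ((y.sp.rest A).F k).e (Setoid.comap (y k).p.π (Setoid.comap (Z.l k).p.π C))
      ((y k).V ⊓ ((y.sp.rest A).F k).Z) := by
    apply FSp.e_congr_right
    intro ω ω' a b
    have a1 : (y k).T.μ ω ≠ 0 := ((y k).T.rest_supp (A k) ω a).1
    have b1 : (y k).T.μ ω' ≠ 0 := ((y k).T.rest_supp (A k) ω' b).1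
    have a2 : (Z.l k).T.μ ((y k).p.π ω) ≠ 0 := (y k).p.supp ω a1
    have b2 : (Z.l k).T.μ ((y k).p.π ω') ≠ 0 := (y k).p.supp ω' b1
    have h1 := (y k).p.hZ ω ω' a1 b1
    have h2 := (Z.l k).p.hZ _ _ a2 b2
    constructor
    · rintro ⟨⟨c1, c2⟩, c3⟩
      exact ⟨c2, h1.2 ⟨c1, h2.2 c3⟩⟩
    · rintro ⟨c1, c2⟩
      have c3 := h1.1 c2
      exact ⟨⟨c3.1, c1⟩, h2.1 c3.2⟩
  exact e3

/-- THE NUMBERS of a zoom on an event -/
theorem H_zoom (P : S.VV m) (hP : ∀ k ω ω', (Z.l k).T.μ ω ≠ 0 → (Z.l k).T.μ ω' ≠ 0 → (Z.l k).V ω ω' →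
    (Z.l k).T.Z ω ω' → P.cellv Z.c k ((Z.l k).p.π ω) = P.cellv Z.c k ((Z.l k).p.π ω')) (y : Lab Z.sp)
    (A : ∀ k, (y.sp.F k).Ω → Prop) (hA : 0 < ul (y.sp.pr A)) {v : ℝ}
    (ht : Tendsto (fun k => h (((Z.cl y).im A k).p.map (fc (Setoid.ker (P.cellv 1 k)) :
      FL ((Sp.im (Z.cl y).pj A).F k))) ((Z.cl y).im A k).v / (S.F k).n) UF (𝓝 v)) :
    H (up1 (y.im A) (((Z.fr P).im y.pj A).dg 1)) = v / Z.e := by
  -- comparison of the cells
  have p1 : PLe (pcd (Z.fr P)) (Z.upz (pcd P)) := by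
    refine Z.fr_PLe P 1 (fun k => Setoid.comap (Z.l k).p.π (Setoid.ker (P.cellv 1 k))) ?_
    refine Eventually.of_forall fun k ω ω' a b g r => ?_
    obtain ⟨g1, g2, -⟩ := Z.hZ k ω ω' a b g
    refine ⟨hP k ω ω' a b g1 g2, ?_⟩
    rw [mul_one, Z.c_add_e]
    exact r
  have p2 : PLe (Z.upz (pcd P)) (pcd (Z.fr P)) := by
    have h1 := Z.fr_PLe' P 1 (fun k => Setoid.ker ((Z.fr P).cellv 1 k)) (by
      refine Eventually.of_forall fun k ω ω' a b g r => ?_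
      obtain ⟨g1, g2, -⟩ := Z.hZ k ω ω' a b g
      exact ⟨hP k ω ω' a b g1 g2, r⟩)
    rw [mul_one, Z.c_add_e] at h1
    exact h1
  have q1 := PLe_rest (Pool.Agent.Helper38.NSL.PLe_pull p1 y.pj) A hA
  have q2 := PLe_rest (Pool.Agent.Helper38.NSL.PLe_pull p2 y.pj) A hA
  have hn : ∀ k, ((y.sp.rest A).F k).n = Z.e * (S.F k).n := fun k => (y k).hn.trans (Z.sp_n k)
  have t0 : Tendsto (fun k => h (fc (Setoid.comap (y k).p.π (Setoid.comap (Z.l k).p.π (Setoid.ker (P.cellv 1 k)))) :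
      FL ((y.sp.rest A).F k)) (fc (y k).V : FL ((y.sp.rest A).F k)) / ((y.sp.rest A).F k).n) UF (𝓝 (v / Z.e)) := by
    refine (ht.div_const Z.e).congr fun k => ?_
    have e3 := congrArg (fun t : ℝ => t / (S.F k).n / Z.e) (cl_h Z y A k (Setoid.ker (P.cellv 1 k)))
    refine e3.trans ?_
    beta_reduce
    rw [hn, div_div, mul_comm Z.e]
  have t1 := tendsto_swap (y.sp.rest A)
    (fun k => Setoid.comap (y k).p.π (Setoid.comap (Z.l k).p.π (Setoid.ker (P.cellv 1 k))))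
    (fun k => Setoid.comap (y k).p.π (Setoid.ker ((Z.fr P).cellv 1 k))) (fun k => (y k).V) t0
    (q1.trans (PLe_of_le fun k => fc_mono inf_le_left)) (q2.trans (PLe_of_le fun k => fc_mono inf_le_left))
  have e1 : ((Z.fr P).im y.pj A).dg 1 = cl (((Z.fr P).im y.pj A).bdd 1).toInf := io_eq (((Z.fr P).im y.pj A).bdd 1)
  rw [e1, H_up1_cl]
  refine ul_eq (Tendsto.congr (fun k => ?_) t1)
  have e2 : ((Sp.im y.pj A).F k).n = ((y.sp.rest A).F k).n := (y k).hn.symm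
  rw [e2]
  rfl

end

end Pool.Agent.Helper48.ROW
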