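import Pool.Agent.Helper48.ROW.Row

/-! ROW (3): substitution of rescaled coordinates. -/

set_option autoImplicit false

namespace Pool.Agent.Helper48.ROW

open MvPolynomial

noncomputable section

variable {N M : ℕ}

/-- the substitution `x_a := t x_(σ a) + o_a` -/
def sb (σ : Fin N → Fin M) (t : ℝ) (o : Fin N → ℝ) : MvPolynomial (Fin N) ℝ →ₐ[ℝ] MvPolynomial (Fin M) ℝ :=
  aeval fun a => C t * X (σ a) + C (o a)

variable (σ : Fin N → Fin M) (t : ℝ) (o : Fin N → ℝ)

theorem sb_C (c : ℝ) : sb σ t o (C c) = C c := by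
  unfold sb
  rw [aeval_C]
  rfl

theorem sb_X (a : Fin N) : sb σ t o (X a) = C t * X (σ a) + C (o a) := by
  unfold sb
  rw [aeval_X]

theorem eval_sb (x : Fin M → ℝ) (f : MvPolynomial (Fin N) ℝ) :
    eval x (sb σ t o f) = eval (fun a => t * x (σ a) + o a) f := by
  induction f using MvPolynomial.induction_on with
  | C c => rw [sb_C, eval_C, eval_C]
  | add f g hf hg => rw [map_add, map_add, map_add, hf, hg]
  | mul_X f n hf => rw [map_mul, map_mul, map_mul, hf, eval_X, sb_X, map_add, map_mul, eval_X, eval_C, eval_C]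

theorem sb_X_deg (a : Fin N) : (C t * X (σ a) + C (o a) : MvPolynomial (Fin M) ℝ).totalDegree ≤ 1 := by
  refine (totalDegree_add _ _).trans (max_le ?_ ?_)
  · refine (totalDegree_mul _ _).trans ?_
    rw [totalDegree_C, totalDegree_X]
  · rw [totalDegree_C]
    exact zero_le_one

theorem sb_deg (f : MvPolynomial (Fin N) ℝ) (n : ℕ) (hf : f.totalDegree ≤ n) : (sb σ t o f).totalDegree ≤ n := by
  rw [f.as_sum, map_sum]
  refine totalDegree_finsetSum_le fun s hs => ?_
  unfold sb
  rw [aeval_monomial]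
  refine (totalDegree_mul _ _).trans ?_
  have e1 : (algebraMap ℝ (MvPolynomial (Fin M) ℝ)) (coeff s f) = C (coeff s f) := rfl
  rw [e1, totalDegree_C, zero_add, Finsupp.prod_fintype _ _ (fun _ => pow_zero _)]
  refine (totalDegree_finsetProd _ _).trans ?_
  have h1 : (s.sum fun _ e => e) ≤ n := (le_totalDegree hs).trans hf
  rw [Finsupp.sum_fintype _ _ (fun _ => rfl)] at h1
  refine le_trans (Finset.sum_le_sum fun i _ => ?_) h1
  refine (totalDegree_pow _ _).trans ?_
  calc s i * _ ≤ s i * 1 := Nat.mul_le_mul_left _ (sb_X_deg σ t o i)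
    _ = s i := mul_one _

theorem sb_vars (f : MvPolynomial (Fin N) ℝ) (i : Fin M) (h : i ∈ (sb σ t o f).vars) : ∃ a, σ a = i := by
  classical
  have h1 : (sb σ t o f).vars ⊆ f.vars.biUnion fun a => (C t * X (σ a) + C (o a) : MvPolynomial (Fin M) ℝ).vars := by
    have e1 : sb σ t o f = bind₁ (fun a => C t * X (σ a) + C (o a)) f := rfl
    rw [e1]
    exact vars_bind₁ _ _
  obtain ⟨a, -, ha⟩ := Finset.mem_biUnion.1 (h1 h)
  have h2 := vars_add_subset _ _ ha
  rw [Finset.mem_union, vars_C] at h2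
  rcases h2 with h2 | h2
  · have h3 := vars_mul _ _ h2
    rw [Finset.mem_union, vars_C, vars_X] at h3
    rcases h3 with h3 | h3
    · exact absurd h3 (Finset.notMem_empty _)
    · exact ⟨a, (Finset.mem_singleton.1 h3).symm⟩
  · exact absurd h2 (Finset.notMem_empty _)

variable {σ} in
/-- chain rule -/
theorem pderiv_sb (hσ : Function.Injective σ) (a : Fin N) (f : MvPolynomial (Fin N) ℝ) :
    pderiv (σ a) (sb σ t o f) = C t * sb σ t o (pderiv a f) := by
  classical
  induction f using MvPolynomial.induction_on with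
  | C c => rw [sb_C, pderiv_C, pderiv_C, map_zero, mul_zero]
  | add f g hf hg => rw [map_add, map_add, map_add, hf, hg, map_add, mul_add]
  | mul_X f n hf =>
    rw [map_mul, pderiv_mul, hf, pderiv_mul, map_add, map_mul, map_mul, sb_X]
    have e1 : pderiv (σ a) (C t * X (σ n) + C (o n) : MvPolynomial (Fin M) ℝ) = C t * sb σ t o (pderiv a (X n)) := by
      rw [map_add, pderiv_C, add_zero, pderiv_C_mul]
      by_cases h : n = a
      · rw [h, pderiv_X_self, pderiv_X_self, map_one, mul_one]
      · rw [pderiv_X_of_ne h, map_zero, mul_zero, pderiv_X_of_ne (fun h' => h (hσ h')), mul_zero]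
    rw [e1]
    ring

end

end Pool.Agent.Helper48.ROW
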