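import Pool.Agent.Helper48.ROW.Typ
import Pool.Agent.Helper48.ROW.Sub
import Pool.Agent.Helper48.ROW.Ent

/-! ROW (5): from typical exponents to a row (RowP of helper85), directly and through a zoom. -/

set_option autoImplicit false

namespace Pool.Agent.Helper48.ROW

open Finset Filter Topology Matrix Pool.Agent.Helper69.RK Pool.Agent.Helper31.EC Pool.Agent.Helper31.EC.Sp
open Pool.Agent.Helper40.EL Pool.Agent.Helper89.LX Pool.Agent.Helper3.LF Pool.Agent.Helper84.MT Pool.Agent.Helper89.RAT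
open Pool.Agent.Helper85.FRM

noncomputable section

variable {S : Sp} {M N D : ℕ} {E : ℕ → ℕ} {ι κ : Type} {s : MSys S M E ι}

/-- labels with finitely many classes -/
theorem DMf_pIx {A : κ → Part S} {l : Lab S} (hl : l.DMf A) (f : ∀ k, (l k).T.Ω → Ix N D) :
    (l.addW fun k => pIx (f k)).DMf A := by
  refine Lab.DMf.addW hl _ fun i => ?_
  refine (Nul.const S (Real.logb 2 (nIx N D + 1))).of_le (Eventually.of_forall fun k => h_nonneg _ _)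
    (Eventually.of_forall fun k => ?_)
  exact pIx_h (f k) _

/-- THE ROW at a window, all coordinates -/
theorem row_dir (hD : 1 ≤ D) {c θ : ℝ} {j : Fin M} (hj : ∀ a, a ≤ j) {A : κ → Part S} {x : ∀ k, FD (S.F k) (Mon M D)}
    (hx : (gaq s.Q D).Adf A x) (hl : s.DMc c (lb x)) (hθ : ∀ e : ℝ, 0 < e → Sp.Typ (S := (lb x).sp)
      fun k (ω : (x k).l.T.Ω) => θ - e ≤ xz s.Q j k ((x k).l.p.π ω) ((x k).g ω)) : RowP s c j θ := by
  obtain ⟨f, p, K, hdeg, hmeas, hK, hT⟩ := rows_ex hD hx hθ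
  refine ⟨D, (lb x).addW fun k => pIx (f k), p, DMf_pIx hl f, hdeg, fun k ω a _ => hj a, ?_, K, hK, hT⟩
  refine Eventually.of_forall fun k ω ω' a b c d => ?_
  exact hmeas k ω ω' a b d.1 c (pIx_eq d.2)

/-- THE ROW through a zoom, the coordinates `σ` -/
theorem row_out (Z : ZM s) (hD : 1 ≤ D) (σ : Fin N → Fin M) (hσ : Function.Injective σ) (z : Fin N)
    (hz : ∀ a, σ a ≤ σ z) {Q' : Z.sp.VV N} (hQ' : ∀ k ω a, Q'.v k ω a = (Z.fr s.Q).v k ω (σ a)) {θ : ℝ}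
    {A : κ → Part Z.sp} {x : ∀ k, FD (Z.sp.F k) (Mon N D)} (hx : (gaq Q' D).Adf A x) (hl : Z.sys.DMc 0 (lb x))
    (hθ : ∀ e : ℝ, 0 < e → Sp.Typ (S := (lb x).sp) fun k (ω : (x k).l.T.Ω) =>
      θ - e ≤ xz Q' z k ((x k).l.p.π ω) ((x k).g ω)) : RowP s Z.c (σ z) (Z.c + Z.e * θ) := by
  obtain ⟨f, p, K, hdeg, hmeas, hK, hT⟩ := rows_ex hD hx hθ
  set y : Lab Z.sp := (lb x).addW fun k => pIx (f k) with hy
  have hly : Z.sys.DMc 0 y := DMf_pIx hl f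
  have hL : s.DMc Z.c (Z.cl y) := by
    have h1 := Z.DMc_cl le_rfl hly
    rwa [mul_zero, add_zero] at h1
  have hev : ∀ k (ω : (x k).l.T.Ω) (q : MvPolynomial (Fin N) ℝ),
      MvPolynomial.eval (s.Q.v k ((Z.l k).p.π ((x k).l.p.π ω))) (sb σ (S.dl Z.c k)⁻¹
        (fun a => -(⌊s.Q.v k ((Z.l k).p.π ((x k).l.p.π ω)) (σ a) / S.dl Z.c k⌋ : ℝ)) q) =
      MvPolynomial.eval (Q'.v k ((x k).l.p.π ω)) q := by
    intro k ω q
    rw [eval_sb]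
    congr 1
    have e1 : (fun a => (S.dl Z.c k)⁻¹ * s.Q.v k ((Z.l k).p.π ((x k).l.p.π ω)) (σ a) +
        -(⌊s.Q.v k ((Z.l k).p.π ((x k).l.p.π ω)) (σ a) / S.dl Z.c k⌋ : ℝ)) = Q'.v k ((x k).l.p.π ω) := by
      funext a
      have h1 := (hQ' k ((x k).l.p.π ω) a).trans (Z.fr_v s.Q k ((x k).l.p.π ω) (σ a))
      refine Eq.trans ?_ h1.symm
      rw [div_eq_inv_mul]
      ring
    rw [e1]
  have hev2 : ∀ k (ω : (x k).l.T.Ω) (q : MvPolynomial (Fin N) ℝ),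
      MvPolynomial.eval (s.Q.v k ((Z.l k).p.π ((x k).l.p.π ω))) (MvPolynomial.pderiv (σ z) (sb σ (S.dl Z.c k)⁻¹
        (fun a => -(⌊s.Q.v k ((Z.l k).p.π ((x k).l.p.π ω)) (σ a) / S.dl Z.c k⌋ : ℝ)) q)) =
      (S.dl Z.c k)⁻¹ * MvPolynomial.eval (Q'.v k ((x k).l.p.π ω)) (MvPolynomial.pderiv z q) := by
    intro k ω q
    refine (congrArg (fun t => MvPolynomial.eval (s.Q.v k ((Z.l k).p.π ((x k).l.p.π ω))) t)
      (pderiv_sb (S.dl Z.c k)⁻¹ _ hσ z q)).trans ?_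
    refine (map_mul _ _ _).trans ?_
    exact congrArg₂ (fun a b : ℝ => a * b) (MvPolynomial.eval_C _) (hev k ω _)
  refine ⟨D, Z.cl y, fun k (ω : (x k).l.T.Ω) => sb σ (S.dl Z.c k)⁻¹
    (fun a => -(⌊s.Q.v k ((Z.l k).p.π ((x k).l.p.π ω)) (σ a) / S.dl Z.c k⌋ : ℝ)) (p k ω), hL,
    fun k ω => sb_deg _ _ _ _ _ (hdeg k ω), ?_, ?_, K, Z.Sub_sp.mpr hK, ?_⟩
  · intro k ω a ha
    obtain ⟨b, rfl⟩ := sb_vars _ _ _ _ _ ha
    exact hz b
  · refine Eventually.of_forall fun k ω ω' a b c d => ?_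
    have a1 : (x k).l.T.μ ω ≠ 0 := a
    have b1 : (x k).l.T.μ ω' ≠ 0 := b
    have a2 : (Z.l k).T.μ ((x k).l.p.π ω) ≠ 0 := (x k).l.p.supp ω a1
    have b2 : (Z.l k).T.μ ((x k).l.p.π ω') ≠ 0 := (x k).l.p.supp ω' b1
    have c1 : (Z.l k).V ((x k).l.p.π ω) ((x k).l.p.π ω') := d.1
    have c2 : (x k).l.V ω ω' := d.2.1
    have c3 : (S.F k).Z ((Z.l k).p.π ((x k).l.p.π ω)) ((Z.l k).p.π ((x k).l.p.π ω')) := c
    have c4 : (Z.l k).T.Z ((x k).l.p.π ω) ((x k).l.p.π ω') := ((Z.l k).p.hZ _ _ a2 b2).mpr c3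
    have c5 : (x k).l.T.Z ω ω' := ((x k).l.p.hZ ω ω' a1 b1).mpr ⟨c1, c4⟩
    have e1 := hmeas k ω ω' a1 b1 c2 c5 (pIx_eq d.2.2)
    have e2 := Z.cell k _ _ a2 b2 c1 c4
    have e3 : (fun a => -(⌊s.Q.v k ((Z.l k).p.π ((x k).l.p.π ω)) (σ a) / S.dl Z.c k⌋ : ℝ)) =
        fun a => -(⌊s.Q.v k ((Z.l k).p.π ((x k).l.p.π ω')) (σ a) / S.dl Z.c k⌋ : ℝ) := by
      funext a
      have e4 : ⌊s.Q.v k ((Z.l k).p.π ((x k).l.p.π ω)) (σ a) / S.dl Z.c k⌋ =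
        ⌊s.Q.v k ((Z.l k).p.π ((x k).l.p.π ω')) (σ a) / S.dl Z.c k⌋ := congrFun e2 (σ a)
      rw [e4]
    beta_reduce
    rw [e1, e3]
  · refine typ_mono (S := (Z.cl y).sp) (E := fun k (ω : (x k).l.T.Ω) =>
      |MvPolynomial.eval (Q'.v k ((x k).l.p.π ω)) (p k ω)| ≤ K k ∧ 2 ^ (θ * (Z.sp.F k).n) ≤ K k *
        |MvPolynomial.eval (Q'.v k ((x k).l.p.π ω)) (MvPolynomial.pderiv z (p k ω))|) hT ?_
    refine Eventually.of_forall fun k ω _ hh => ?_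
    obtain ⟨h1, h2⟩ := hh
    have hd := S.dl_pos Z.c k
    constructor
    · exact (congrArg (fun t : ℝ => |t| ≤ K k) (hev k ω (p k ω))).mpr h1
    · refine (congrArg (fun t : ℝ => (2 : ℝ) ^ ((Z.c + Z.e * θ) * (S.F k).n) ≤ K k * |t|) (hev2 k ω (p k ω))).mpr ?_
      rw [abs_mul, abs_of_pos (inv_pos.mpr hd)]
      have e1 : (2 : ℝ) ^ ((Z.c + Z.e * θ) * (S.F k).n) = (S.dl Z.c k)⁻¹ * 2 ^ (θ * (Z.sp.F k).n) := by
        have e2 : (S.dl Z.c k)⁻¹ = 2 ^ (Z.c * (S.F k).n) := by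
          unfold Sp.dl
          rw [← Real.rpow_neg (by norm_num), neg_neg]
        rw [e2, ← Real.rpow_add (by norm_num), Z.sp_n]
        congr 1
        ring
      rw [e1]
      calc (S.dl Z.c k)⁻¹ * 2 ^ (θ * (Z.sp.F k).n) ≤ (S.dl Z.c k)⁻¹ * (K k *
          |MvPolynomial.eval (Q'.v k ((x k).l.p.π ω)) (MvPolynomial.pderiv z (p k ω))|) :=
            mul_le_mul_of_nonneg_left h2 (inv_pos.mpr hd).le
        _ = _ := by ring

end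

end Pool.Agent.Helper48.ROW
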