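import Pool.Agent.Helper84.MT.Vol

/-! ROW (1): the deterministic lemma. Among the finitely many polynomials `r ^ |w| d_w (row k)` (rows of a factor of the
form, words `w` of length at most `D`) there is one, which is of size at most that of the form at the point and whose
derivative with respect to `x_j` at the point dominates the diagonal coefficient of `Jq`. -/

set_option autoImplicit false

namespace Pool.Agent.Helper48.ROW

open MvPolynomial Matrix Pool.Agent.Helper95.LF Pool.Agent.Helper3.LF Pool.Agent.Helper84.MT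

variable {N D : ℕ}

theorem pd_comm (i j : Fin N) (q : MvPolynomial (Fin N) ℝ) : pderiv i (pderiv j q) = pderiv j (pderiv i q) := by
  classical
  induction q using MvPolynomial.induction_on with
  | C a => simp
  | add p q hp hq => rw [map_add, map_add, hp, hq, map_add, map_add]
  | mul_X p k hp =>
    have hz : ∀ a b : Fin N, pderiv a (pderiv b (X k : MvPolynomial (Fin N) ℝ)) = 0 := by
      intro a b
      by_cases hb : k = b
      · subst hb
        rw [pderiv_X_self, pderiv_one]
      · rw [pderiv_X_of_ne hb, map_zero]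
    rw [pderiv_mul, pderiv_mul, map_add, map_add, pderiv_mul, pderiv_mul, pderiv_mul, pderiv_mul, hz, hz, hp]
    ring

/-- iterated derivatives -/
noncomputable def dw (w : List (Fin N)) (q : MvPolynomial (Fin N) ℝ) : MvPolynomial (Fin N) ℝ :=
  w.foldl (fun g i => pderiv i g) q

theorem dw_nil (q : MvPolynomial (Fin N) ℝ) : dw [] q = q := rfl

theorem dw_cons (i : Fin N) (w : List (Fin N)) (q : MvPolynomial (Fin N) ℝ) : dw (i :: w) q = dw w (pderiv i q) := rfl

theorem dw_pd (j : Fin N) (w : List (Fin N)) (q : MvPolynomial (Fin N) ℝ) : dw w (pderiv j q) = pderiv j (dw w q) := by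
  induction w generalizing q with
  | nil => rfl
  | cons i w ih => rw [dw_cons, dw_cons, pd_comm, ih]

theorem dw_deg (w : List (Fin N)) (q : MvPolynomial (Fin N) ℝ) (hq : q.totalDegree ≤ D) :
    (dw w q).totalDegree ≤ D := by
  induction w generalizing q with
  | nil => exact hq
  | cons i w ih =>
    rw [dw_cons]
    exact ih _ (pderiv_tdeg q hq i)

/-- Taylor, one word -/
theorem tay (D : ℕ) : ∀ (g : MvPolynomial (Fin N) ℝ), g.totalDegree ≤ D → ∀ (q ν : Fin N → ℝ), (∀ i, |ν i| ≤ 1) →
    ∀ r : ℝ, 0 ≤ r → ∃ w : List (Fin N), w.length ≤ D ∧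
      |eval (fun i => q i + r * ν i) g| ≤ ((N : ℝ) + 1) ^ D * (r ^ w.length * |eval q (dw w g)|) := by
  induction D with
  | zero =>
    intro g hg q ν hν r hr
    have h1 : g = C (coeff 0 g) := totalDegree_eq_zero_iff_eq_C.1 (Nat.le_zero.1 hg)
    refine ⟨[], le_rfl, ?_⟩
    rw [pow_zero, one_mul, List.length_nil, pow_zero, one_mul, dw_nil, h1, eval_C, eval_C]
  | succ D ih =>
    intro g hg q ν hν r hr
    obtain ⟨s, ⟨hs0, hs1⟩, hs⟩ := exists_hasDerivAt_eq_slope (fun t => (lin q (fun i => r * ν i) g).eval t)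
      (fun t => (Polynomial.derivative (lin q (fun i => r * ν i) g)).eval t) (zero_lt_one (α := ℝ))
      (Polynomial.continuous _).continuousOn (fun x _ => Polynomial.hasDerivAt _ _)
    rw [sub_zero, div_one] at hs
    have e0 : (lin q (fun i => r * ν i) g).eval 0 = eval q g := by
      rw [eval_lin]
      congr 1
      have : (fun k => q k + 0 * (r * ν k)) = q := by
        funext k
        ring
      rw [this]
    have e1 : (lin q (fun i => r * ν i) g).eval 1 = eval (fun i => q i + r * ν i) g := by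
      rw [eval_lin]
      have : (fun k => q k + 1 * (r * ν k)) = fun i => q i + r * ν i := by
        funext k
        ring
      rw [this]
    have e2 : (Polynomial.derivative (lin q (fun i => r * ν i) g)).eval s =
        ∑ i, (r * ν i) * eval (fun k => q k + r * (s * ν k)) (pderiv i g) := by
      rw [deriv_lin, Polynomial.eval_finsetSum]
      refine Finset.sum_congr rfl fun i _ => ?_
      rw [Polynomial.eval_mul, Polynomial.eval_C, eval_lin]
      have : (fun k => q k + s * (r * ν k)) = fun k => q k + r * (s * ν k) := by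
        funext k
        ring
      rw [this]
    rw [e0, e1, e2] at hs
    have hsν : ∀ i, |s * ν i| ≤ 1 := by
      intro i
      rw [abs_mul, abs_of_pos hs0]
      exact (mul_le_mul hs1.le (hν i) (abs_nonneg _) zero_le_one).trans (le_of_eq (one_mul _))
    choose w hw1 hw2 using fun i => ih (pderiv i g) (tdeg_pderiv i g D hg) q (fun k => s * ν k) hsν r hr
    classical
    -- the best word
    obtain ⟨v, hmem, hv⟩ := Finset.exists_max_image (insert [] (Finset.univ.image fun i => i :: w i))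
      (fun v => r ^ v.length * |eval q (dw v g)|) (Finset.insert_nonempty _ _)
    have hvl : v.length ≤ D + 1 := by
      rcases Finset.mem_insert.1 hmem with h | h
      · rw [h]
        exact Nat.zero_le _
      · obtain ⟨i, -, rfl⟩ := Finset.mem_image.1 h
        rw [List.length_cons]
        exact Nat.succ_le_succ (hw1 i)
    refine ⟨v, hvl, ?_⟩
    set m := r ^ v.length * |eval q (dw v g)| with hm
    have hm0 : 0 ≤ m := mul_nonneg (pow_nonneg hr _) (abs_nonneg _)
    have h1 : |eval q g| ≤ m := by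
      have := hv [] (Finset.mem_insert_self _ _)
      rwa [List.length_nil, pow_zero, one_mul, dw_nil] at this
    have h2 : ∀ i, r ^ ((w i).length + 1) * |eval q (dw (w i) (pderiv i g))| ≤ m := by
      intro i
      have := hv (i :: w i) (Finset.mem_insert_of_mem (Finset.mem_image_of_mem _ (Finset.mem_univ i)))
      rwa [List.length_cons, dw_cons] at this
    have hN : (0 : ℝ) ≤ ((N : ℝ) + 1) ^ D := by positivity
    have h3 : ∀ i ∈ (Finset.univ : Finset (Fin N)), |(r * ν i) * eval (fun k => q k + r * (s * ν k)) (pderiv i g)| ≤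
        ((N : ℝ) + 1) ^ D * m := by
      intro i _
      rw [abs_mul, abs_mul, abs_of_nonneg hr]
      calc r * |ν i| * |eval (fun k => q k + r * (s * ν k)) (pderiv i g)| ≤
          r * 1 * (((N : ℝ) + 1) ^ D * (r ^ (w i).length * |eval q (dw (w i) (pderiv i g))|)) :=
            mul_le_mul (mul_le_mul_of_nonneg_left (hν i) hr) (hw2 i) (abs_nonneg _) (by positivity)
        _ = ((N : ℝ) + 1) ^ D * (r ^ ((w i).length + 1) * |eval q (dw (w i) (pderiv i g))|) := by ring
        _ ≤ _ := mul_le_mul_of_nonneg_left (h2 i) hN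
    have h4 : |∑ i, (r * ν i) * eval (fun k => q k + r * (s * ν k)) (pderiv i g)| ≤ N * (((N : ℝ) + 1) ^ D * m) := by
      refine (Finset.abs_sum_le_sum_abs _ _).trans ((Finset.sum_le_card_nsmul _ _ _ h3).trans (le_of_eq ?_))
      rw [nsmul_eq_mul, Finset.card_univ, Fintype.card_fin]
    have h5 : eval (fun i => q i + r * ν i) g = eval q g +
        ∑ i, (r * ν i) * eval (fun k => q k + r * (s * ν k)) (pderiv i g) := by
      rw [hs]
      ring
    rw [h5]
    have h6 : 1 ≤ ((N : ℝ) + 1) ^ D := one_le_pow₀ (by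
      have : (0 : ℝ) ≤ N := Nat.cast_nonneg N
      linarith)
    calc |eval q g + ∑ i, (r * ν i) * eval (fun k => q k + r * (s * ν k)) (pderiv i g)| ≤
        m + N * (((N : ℝ) + 1) ^ D * m) := (abs_add_le _ _).trans (add_le_add h1 h4)
      _ ≤ ((N : ℝ) + 1) ^ D * m + N * (((N : ℝ) + 1) ^ D * m) := by
          have := le_mul_of_one_le_left hm0 h6
          linarith
      _ = ((N : ℝ) + 1) ^ (D + 1) * m := by ring

/-- Markov, iterated -/
theorem ph_dw (r : ℝ) (hr : 0 < r) (q : Fin N → ℝ) (w : List (Fin N)) (g : MvPolynomial (Fin N) ℝ)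
    (hg : g.totalDegree ≤ D) : r ^ (2 * w.length) * ph D (dw w g) r q ≤
      ((N : ℝ) * nn N D * Cm N D ^ 2) ^ w.length * ph D g r q := by
  induction w generalizing g with
  | nil => rw [List.length_nil, mul_zero, pow_zero, pow_zero, dw_nil]
  | cons i w ih =>
    have h0 : 0 ≤ (N : ℝ) * nn N D * Cm N D ^ 2 := by
      have := nn_one N D
      positivity
    have h1 := ih (pderiv i g) (pderiv_tdeg g hg i)
    have h2 := ga_le g hg r hr q
    have h3 : ph D (pderiv i g) r q ≤ ga D g r q :=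
      Finset.single_le_sum (f := fun i => ph D (pderiv i g) r q) (fun _ _ => ph_nonneg _ _ _) (Finset.mem_univ i)
    rw [List.length_cons, dw_cons]
    calc r ^ (2 * (w.length + 1)) * ph D (dw w (pderiv i g)) r q
        = r ^ 2 * (r ^ (2 * w.length) * ph D (dw w (pderiv i g)) r q) := by ring
      _ ≤ r ^ 2 * (((N : ℝ) * nn N D * Cm N D ^ 2) ^ w.length * ph D (pderiv i g) r q) :=
          mul_le_mul_of_nonneg_left h1 (by positivity)
      _ ≤ r ^ 2 * (((N : ℝ) * nn N D * Cm N D ^ 2) ^ w.length * ga D g r q) :=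
          mul_le_mul_of_nonneg_left (mul_le_mul_of_nonneg_left h3 (pow_nonneg h0 _)) (by positivity)
      _ = ((N : ℝ) * nn N D * Cm N D ^ 2) ^ w.length * (r ^ 2 * ga D g r q) := by ring
      _ ≤ ((N : ℝ) * nn N D * Cm N D ^ 2) ^ w.length * ((N : ℝ) * nn N D * Cm N D ^ 2 * ph D g r q) :=
          mul_le_mul_of_nonneg_left h2 (pow_nonneg h0 _)
      _ = _ := by ring

theorem node_zero (r : ℝ) (q : Fin N → ℝ) : nodp D q r (fun _ => 0) = q := by
  funext i
  unfold nodp nod
  simp

/-- the polynomial number `(k, w)` of a factor -/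
noncomputable def pw (r : ℝ) (C : Matrix (Mon N D) (Mon N D) ℝ) (k : Mon N D) (w : List (Fin N)) :
    MvPolynomial (Fin N) ℝ := MvPolynomial.C (r ^ w.length) * dw w (pol (C k))

theorem pw_deg (r : ℝ) (C : Matrix (Mon N D) (Mon N D) ℝ) (k : Mon N D) (w : List (Fin N)) :
    (pw r C k w).totalDegree ≤ D := by
  unfold pw
  refine (totalDegree_mul _ _).trans ?_
  rw [totalDegree_C, zero_add]
  exact dw_deg w _ (pol_deg _)

/-- the constant -/
noncomputable def cR (N D : ℕ) : ℝ :=
  (1 + (N : ℝ) * nn N D * Cm N D ^ 2) ^ D + Fintype.card (Mon N D) * (nn N D * ((N : ℝ) + 1) ^ (2 * D))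

theorem cR_one (N D : ℕ) : 1 ≤ cR N D := by
  have h1 := nn_one N D
  have h2 := Cm_one N D
  have h3 : 0 ≤ (N : ℝ) * nn N D * Cm N D ^ 2 := by positivity
  have h4 : 1 ≤ (1 + (N : ℝ) * nn N D * Cm N D ^ 2) ^ D := one_le_pow₀ (by linarith)
  have h5 : 0 ≤ (Fintype.card (Mon N D) : ℝ) * (nn N D * ((N : ℝ) + 1) ^ (2 * D)) := by positivity
  unfold cR
  linarith

theorem pw_val (r : ℝ) (hr : 0 < r) (C : Matrix (Mon N D) (Mon N D) ℝ) (q : Fin N → ℝ) (k : Mon N D)
    (w : List (Fin N)) (hw : w.length ≤ D) : (eval q (pw r C k w)) ^ 2 ≤ cR N D * phi r (C.transpose * C) q := by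
  have h1 := ph_dw r hr q w (pol (C k)) (pol_deg (C k))
  have h2 : (eval q (dw w (pol (C k)))) ^ 2 ≤ ph D (dw w (pol (C k))) r q := by
    have := Finset.single_le_sum (f := fun j : Fin N → Fin (D + 1) => (eval (nodp D q r j) (dw w (pol (C k)))) ^ 2)
      (fun _ _ => sq_nonneg _) (Finset.mem_univ (fun _ => 0))
    rwa [node_zero] at this
  have h3 : ph D (pol (C k)) r q ≤ phi r (C.transpose * C) q := by
    rw [phi_rows]
    exact Finset.single_le_sum (f := fun k => ph D (pol (C k)) r q) (fun _ _ => ph_nonneg _ _ _) (Finset.mem_univ k)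
  have h0 : 0 ≤ (N : ℝ) * nn N D * Cm N D ^ 2 := by
    have := nn_one N D
    positivity
  have hp := ph_nonneg (D := D) (pol (C k)) r q
  have h4 : ((N : ℝ) * nn N D * Cm N D ^ 2) ^ w.length ≤ cR N D := by
    have h5 : ((N : ℝ) * nn N D * Cm N D ^ 2) ^ w.length ≤ (1 + (N : ℝ) * nn N D * Cm N D ^ 2) ^ w.length :=
      pow_le_pow_left₀ h0 (by linarith) _
    have h6 : (1 + (N : ℝ) * nn N D * Cm N D ^ 2) ^ w.length ≤ (1 + (N : ℝ) * nn N D * Cm N D ^ 2) ^ D :=
      pow_le_pow_right₀ (by linarith) hw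
    have h7 : 0 ≤ (Fintype.card (Mon N D) : ℝ) * (nn N D * ((N : ℝ) + 1) ^ (2 * D)) := by
      have := nn_one N D
      positivity
    unfold cR
    linarith
  unfold pw
  rw [map_mul, eval_C, mul_pow, ← pow_mul, mul_comm w.length 2]
  calc r ^ (2 * w.length) * (eval q (dw w (pol (C k)))) ^ 2
      ≤ r ^ (2 * w.length) * ph D (dw w (pol (C k))) r q := mul_le_mul_of_nonneg_left h2 (by positivity)
    _ ≤ ((N : ℝ) * nn N D * Cm N D ^ 2) ^ w.length * ph D (pol (C k)) r q := h1
    _ ≤ cR N D * ph D (pol (C k)) r q := mul_le_mul_of_nonneg_right h4 hp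
    _ ≤ cR N D * phi r (C.transpose * C) q := mul_le_mul_of_nonneg_left h3 (by linarith [cR_one N D])

theorem Jq_diag (r : ℝ) (C : Matrix (Mon N D) (Mon N D) ℝ) (q : Fin N → ℝ) (j : Fin N) :
    Jq r (C.transpose * C) q j j = ∑ k, ph D (pderiv j (pol (C k))) r q := by
  rw [Jq_apply]
  unfold ph
  rw [Finset.sum_comm (s := (Finset.univ : Finset (Mon N D)))]
  refine Finset.sum_congr rfl fun ν _ => ?_
  rw [qf_rows]
  exact Finset.sum_congr rfl fun k _ => by rw [eval_pderiv_pol]

/-- THE DETERMINISTIC LEMMA -/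
theorem row_ex (r : ℝ) (hr : 0 < r) (C : Matrix (Mon N D) (Mon N D) ℝ) (q : Fin N → ℝ) (j : Fin N) :
    ∃ (k : Mon N D) (w : List (Fin N)), w.length ≤ D ∧
      Jq r (C.transpose * C) q j j ≤ cR N D * (eval q (pderiv j (pw r C k w))) ^ 2 := by
  classical
  obtain ⟨⟨k, ν⟩, -, hmax⟩ := Finset.exists_max_image
    (Finset.univ : Finset (Mon N D × (Fin N → Fin (D + 1))))
    (fun x => (eval (nodp D q r x.2) (pderiv j (pol (C x.1)))) ^ 2) Finset.univ_nonempty
  obtain ⟨w, hw, h1⟩ := tay D (pderiv j (pol (C k))) (pderiv_tdeg _ (pol_deg _) j) q (fun i => nod D (ν i))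
    (fun i => by
      rw [abs_of_nonneg (nod_nonneg _ _)]
      exact nod_le D _ (Nat.le_of_lt_succ (ν i).2)) r hr.le
  refine ⟨k, w, hw, ?_⟩
  have e1 : (fun i => q i + r * nod D (ν i)) = nodp D q r ν := rfl
  rw [e1] at h1
  have e2 : r ^ w.length * |eval q (dw w (pderiv j (pol (C k))))| = |eval q (pderiv j (pw r C k w))| := by
    unfold pw
    rw [pderiv_C_mul, map_mul, eval_C, dw_pd, abs_mul, abs_of_pos (pow_pos hr _)]
  rw [e2] at h1
  have h2 : (eval (nodp D q r ν) (pderiv j (pol (C k)))) ^ 2 ≤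
      ((N : ℝ) + 1) ^ (2 * D) * (eval q (pderiv j (pw r C k w))) ^ 2 := by
    have h3 := pow_le_pow_left₀ (abs_nonneg _) h1 2
    rw [sq_abs, mul_pow, sq_abs, ← pow_mul, mul_comm D 2] at h3
    exact h3
  have h4 : ∀ k' ∈ (Finset.univ : Finset (Mon N D)), ph D (pderiv j (pol (C k'))) r q ≤
      nn N D * (((N : ℝ) + 1) ^ (2 * D) * (eval q (pderiv j (pw r C k w))) ^ 2) := by
    intro k' _
    unfold ph
    refine (Finset.sum_le_card_nsmul _ _ _ fun ν' _ => (hmax ⟨k', ν'⟩ (Finset.mem_univ _)).trans h2).trans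
      (le_of_eq ?_)
    rw [nsmul_eq_mul, card_nodes]
  rw [Jq_diag]
  refine (Finset.sum_le_card_nsmul _ _ _ h4).trans ?_
  rw [nsmul_eq_mul, Finset.card_univ]
  have h0 : 0 ≤ (N : ℝ) * nn N D * Cm N D ^ 2 := by
    have := nn_one N D
    positivity
  have h5 : 0 ≤ (1 + (N : ℝ) * nn N D * Cm N D ^ 2) ^ D := pow_nonneg (by linarith) _
  have h6 := sq_nonneg (eval q (pderiv j (pw r C k w)))
  unfold cR
  calc (Fintype.card (Mon N D) : ℝ) * (nn N D * (((N : ℝ) + 1) ^ (2 * D) * (eval q (pderiv j (pw r C k w))) ^ 2))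
      = 0 * (eval q (pderiv j (pw r C k w))) ^ 2 + (Fintype.card (Mon N D) : ℝ) * (nn N D * ((N : ℝ) + 1) ^ (2 * D)) *
          (eval q (pderiv j (pw r C k w))) ^ 2 := by ring
    _ ≤ (1 + (N : ℝ) * nn N D * Cm N D ^ 2) ^ D * (eval q (pderiv j (pw r C k w))) ^ 2 +
          (Fintype.card (Mon N D) : ℝ) * (nn N D * ((N : ℝ) + 1) ^ (2 * D)) *
          (eval q (pderiv j (pw r C k w))) ^ 2 := add_le_add (mul_le_mul_of_nonneg_right h5 h6) le_rfl
    _ = _ := by ring

end Pool.Agent.Helper48.ROW
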